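import Pool.Agent.SmS.D31

/-!
# Smooth solutions of `φ(σ(n)) = n`: part of the search for the primes up to 31
-/

set_option autoImplicit false

open Finset ArithmeticFunction

namespace Pool.Agent.SmS.D31

lemma chk0 : go solsN (lev3.res (0, 12) :: lev2.res (0, 37) :: rest) 1 1 1 1 1 = true := by
  decide +kernel

lemma chk1 : go solsN (lev3.res (12, 4) :: lev2.res (0, 37) :: rest) 1 1 1 1 1 = true := by
  decide +kernel

lemma chk2 : go solsN (lev3.res (16, 10) :: lev2.res (0, 37) :: rest) 1 1 1 1 1 = true := by
  decide +kernel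


end Pool.Agent.SmS.D31
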