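import Mathlib

/-!
# Smooth solutions of `φ(σ(n)) = n`: bounding the exponents

General facts on solutions `n` all of whose prime factors lie in a finite list `S` of primes.
-/

set_option autoImplicit false

open Finset ArithmeticFunction

namespace Pool.Agent.SmS

/-- `n` is a positive solution of `φ(σ(n)) = n`. -/
def Sol (n : ℕ) : Prop := 0 < n ∧ Nat.totient (sigma 1 n) = n

/-- all prime factors of `n` are in the list `S` -/
def Sm (S : List ℕ) (n : ℕ) : Prop := ∀ p : ℕ, p.Prime → p ∣ n → p ∈ S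

/-- `1 + q + ... + q ^ (d - 1)` -/
def g (q d : ℕ) : ℕ := ∑ i ∈ range d, q ^ i

lemma g_mul (q d : ℕ) (hq : 1 ≤ q) : g q d * (q - 1) = q ^ d - 1 := by
  unfold g
  obtain ⟨k, rfl⟩ := Nat.exists_eq_add_of_le hq
  induction d with
  | zero => simp
  | succ d ih =>
    rw [Finset.sum_range_succ, add_mul, ih]
    have h1 : 1 ≤ (1 + k) ^ d := Nat.one_le_pow _ _ (by omega)
    have h2 : (1 + k) ^ (d + 1) = (1 + k) ^ d + (1 + k) ^ d * k := by ring
    rw [h2]
    have h3 : 1 + k - 1 = k := by omega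
    rw [h3]
    omega

lemma g_pos (q d : ℕ) (hd : 0 < d) : 0 < g q d := by
  unfold g
  apply Finset.sum_pos' (fun i _ => Nat.zero_le _)
  exact ⟨0, by simp [hd], by simp⟩

lemma g_dvd (q d N : ℕ) (hq : 2 ≤ q) (h : d ∣ N) : g q d ∣ g q N := by
  have h1 : q ^ d - 1 ∣ q ^ N - 1 := by
    obtain ⟨c, rfl⟩ := h
    rw [pow_mul]
    simpa using Nat.sub_dvd_pow_sub_pow (q ^ d) 1 c
  rw [← g_mul q d (by omega), ← g_mul q N (by omega)] at h1
  exact Nat.dvd_of_mul_dvd_mul_right (by omega) h1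

lemma sigma_prime_pow (q e : ℕ) (hq : q.Prime) : sigma 1 (q ^ e) = g q (e + 1) := by
  rw [sigma_one_apply, Nat.divisors_prime_pow hq]
  simp [g]

lemma g_dvd_sigma {n q d : ℕ} (hn : 0 < n) (hq : q.Prime) (h : d ∣ n.factorization q + 1) :
    g q d ∣ sigma 1 n := by
  have h1 : n = q ^ n.factorization q * (n / q ^ n.factorization q) :=
    (Nat.ordProj_mul_ordCompl_eq_self n q).symm
  have h2 : Nat.Coprime (q ^ n.factorization q) (n / q ^ n.factorization q) :=
    Nat.Coprime.pow_left _ (Nat.coprime_ordCompl hq hn.ne')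
  have h3 : sigma 1 n = sigma 1 (q ^ n.factorization q) * 
      sigma 1 (n / q ^ n.factorization q) := by
    conv_lhs => rw [h1]
    exact isMultiplicative_sigma.map_mul_of_coprime h2
  rw [h3, sigma_prime_pow q _ hq]
  exact Dvd.dvd.mul_right (g_dvd q d _ hq.two_le h) _

lemma sigma_pos' {n : ℕ} (hn : 0 < n) : 0 < sigma 1 n := by
  rw [sigma_one_apply]
  apply Finset.sum_pos
  · intro i hi; exact Nat.pos_of_mem_divisors hi
  · exact ⟨1, by simp [hn.ne']⟩

/-- `r ∣ σ(n)` implies `r - 1 ∣ n`. -/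
lemma Sol.pred_dvd {n r : ℕ} (h : Sol n) (hr : r.Prime) (hd : r ∣ sigma 1 n) : r - 1 ∣ n := by
  have h1 := Nat.totient_dvd_of_dvd hd
  rw [Nat.totient_prime hr, h.2] at h1
  exact h1

/-- `r ^ 2 ∣ σ(n)` implies `r ∣ n`. -/
lemma Sol.sq_dvd {n r : ℕ} (h : Sol n) (hr : r.Prime) (hd : r * r ∣ sigma 1 n) : r ∣ n := by
  have h1 := Nat.totient_dvd_of_dvd hd
  rw [← pow_two, Nat.totient_prime_pow hr (by norm_num), h.2] at h1
  exact (Dvd.intro (r - 1) (by simp)).trans h1

lemma sqfree_dvd {v y : ℕ} (hv : Squarefree v) (h : ∀ p : ℕ, p.Prime → p ∣ v → (p : ℤ) ∣ y) :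
    v ∣ y := by
  rw [← Nat.prod_primeFactors_of_squarefree hv]
  apply Finset.prod_primes_dvd
  · intro p hp
    exact (Nat.prime_of_mem_primeFactors hp).prime
  · intro p hp
    have := h p (Nat.prime_of_mem_primeFactors hp) (Nat.dvd_of_mem_primeFactors hp)
    exact_mod_cast this

/-- one round of modular powers -/
def rnd (S : List ℕ) (v x : ℕ) : ℕ := S.foldl (fun y l => Nat.mod (Nat.pow y l) v) x

/-- `k` rounds of modular powers -/
def iter (S : List ℕ) (v : ℕ) (k : ℕ) : ℕ → ℕ :=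
  Nat.rec (motive := fun _ => ℕ → ℕ) (fun x => x)
    (fun _ ih x => Nat.rec (motive := fun _ => ℕ) 0 (fun y _ => ih (Nat.succ y)) (rnd S v x)) k

lemma rnd_modEq (S : List ℕ) (v x : ℕ) : rnd S v x ≡ x ^ S.prod [MOD v] := by
  unfold rnd
  induction S generalizing x with
  | nil => simp [Nat.ModEq]
  | cons l S ih =>
    rw [List.foldl_cons, List.prod_cons, pow_mul]
    refine (ih _).trans ?_
    apply Nat.ModEq.pow
    exact Nat.mod_modEq _ _

lemma iter_modEq (S : List ℕ) (v k x : ℕ) (h : Nat.Coprime x v) (hv : 1 < v) :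
    iter S v k x ≡ x ^ (S.prod ^ k) [MOD v] := by
  induction k generalizing x with
  | zero => simp [iter, Nat.ModEq]
  | succ k ih =>
    have h1 := rnd_modEq S v x
    have h2 : Nat.Coprime (rnd S v x) v := by
      have := h.pow_left S.prod
      unfold Nat.Coprime at this ⊢
      rw [h1.gcd_eq]
      exact this
    have h3 : rnd S v x ≠ 0 := by
      intro h0
      rw [h0] at h2
      simp at h2
      omega
    obtain ⟨y, hy⟩ := Nat.exists_eq_succ_of_ne_zero h3
    have h4 : iter S v (k + 1) x = iter S v k (rnd S v x) := by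
      have e : iter S v (k + 1) x = Nat.rec (motive := fun _ => ℕ) 0
        (fun y _ => iter S v k (Nat.succ y)) (rnd S v x) := rfl
      rw [e, hy]
    rw [h4]
    refine (ih _ h2).trans ?_
    rw [pow_succ', pow_mul]
    exact h1.pow _

/-- The certificate: an integer `v ∣ σ(n)` prime to `S` is squarefree with smooth `r - 1`. -/
lemma cert {S : List ℕ} {n v k x : ℕ} (h : Sol n) (hs : Sm S n) (hS : ∀ p ∈ S, 2 ≤ p)
    (hvd : v ∣ sigma 1 n) (hc : Nat.Coprime v S.prod) (hx : Nat.Coprime x v) (hk : v ≤ 2 ^ k)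
    (hv : 1 < v) : iter S v k x % v = 1 := by
  have hne : ∀ r : ℕ, r.Prime → r ∣ v → r ∉ S := by
    intro r hr hrv hrS
    have : r ∣ 1 := by
      rw [← hc.gcd_eq_one]
      exact Nat.dvd_gcd hrv (List.dvd_prod hrS)
    exact hr.one_lt.ne' (Nat.dvd_one.1 this)
  have hsq : Squarefree v := by
    rw [Nat.squarefree_iff_prime_squarefree]
    intro r hr hrr
    have h1 : r ∣ n := h.sq_dvd hr (hrr.trans hvd)
    exact hne r hr ((Dvd.intro _ rfl).trans hrr) (hs r hr h1)
  have hS0 : S.prod ≠ 0 := by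
    intro h0
    rw [List.prod_eq_zero_iff] at h0
    have := hS 0 h0
    omega
  have hpr : ∀ r : ℕ, r.Prime → r ∣ v → r - 1 ∣ S.prod ^ k := by
    intro r hr hrv
    have h1 : r - 1 ∣ n := h.pred_dvd hr (hrv.trans hvd)
    have h2 : r ≤ v := Nat.le_of_dvd (by omega) hrv
    have h3 := hr.two_le
    rw [← Nat.factorization_le_iff_dvd (by omega) (pow_ne_zero _ hS0)]
    intro l
    by_cases hl : l.Prime ∧ l ∣ r - 1
    · obtain ⟨hl, hld⟩ := hl
      have h4 : (r - 1).factorization l ≤ k := by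
        apply Nat.factorization_le_of_le_pow
        calc r - 1 ≤ v := by omega
          _ ≤ 2 ^ k := hk
          _ ≤ l ^ k := Nat.pow_le_pow_left hl.two_le k
      have h5 : 1 ≤ S.prod.factorization l := by
        rw [← hl.dvd_iff_one_le_factorization hS0]
        exact List.dvd_prod (hs l hl (hld.trans h1))
      rw [Nat.factorization_pow]
      simp only [Finsupp.coe_smul, Pi.smul_apply, smul_eq_mul]
      calc (r - 1).factorization l ≤ k * 1 := by omega
        _ ≤ k * S.prod.factorization l := Nat.mul_le_mul_left k h5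
    · have h4 : (r - 1).factorization l = 0 := by
        rw [Nat.factorization_eq_zero_iff]
        tauto
      rw [h4]; exact Nat.zero_le _
  have hdv : v ∣ x ^ (S.prod ^ k) - 1 := by
    apply sqfree_dvd hsq
    intro r hr hrv
    have hxr : Nat.Coprime x r := Nat.Coprime.coprime_dvd_right hrv hx
    have h1 : x ^ (r - 1) ≡ 1 [MOD r] := by
      have := Nat.ModEq.pow_totient hxr
      rwa [Nat.totient_prime hr] at this
    obtain ⟨c, hc⟩ := hpr r hr hrv
    have h2 : x ^ (S.prod ^ k) ≡ 1 [MOD r] := by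
      rw [hc, pow_mul]
      simpa using h1.pow c
    have hx0 : 1 ≤ x ^ (S.prod ^ k) := by
      apply Nat.one_le_pow
      rcases Nat.eq_zero_or_pos x with h0 | h0
      · rw [h0] at hx
        simp at hx
        omega
      · exact h0
    have h3 := (Nat.modEq_iff_dvd' hx0).1 h2.symm
    exact_mod_cast h3
  have hx0 : 1 ≤ x ^ (S.prod ^ k) := by
    apply Nat.one_le_pow
    rcases Nat.eq_zero_or_pos x with h0 | h0
    · rw [h0] at hx
      simp at hx
      omega
    · exact h0
  have h1 := iter_modEq S v k x hx hv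
  have h2 : x ^ (S.prod ^ k) ≡ 1 [MOD v] := ((Nat.modEq_iff_dvd' hx0).2 hdv).symm
  have h3 := h1.trans h2
  unfold Nat.ModEq at h3
  rw [h3, Nat.mod_eq_of_lt hv]

/-- A prime `l` with `l ∣ v_q(n) + 1` is in `S`, the list of all primes up to `B`. -/
lemma large {S : List ℕ} {n q l B : ℕ} (h : Sol n) (hs : Sm S n)
    (hB : ∀ p ∈ S, p ≤ B) (hB2 : ∀ p : ℕ, p.Prime → p ≤ B → p ∈ S) (hq : q.Prime) (hqS : q ∈ S)
    (hl : l.Prime) (hld : l ∣ n.factorization q + 1) : l ∈ S := by
  by_contra hlS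
  have hlB : B < l := by
    by_contra hc
    exact hlS (hB2 l hl (by omega))
  have hqB := hB q hqS
  have hq2 := hq.two_le
  have hgd := g_dvd_sigma h.1 hq hld
  have hg1 : g q l ≠ 1 := by
    unfold g
    have : 1 + q ≤ ∑ i ∈ range l, q ^ i := by
      calc 1 + q = ∑ i ∈ range 2, q ^ i := by simp [Finset.sum_range_succ]
        _ ≤ ∑ i ∈ range l, q ^ i := by
          apply Finset.sum_le_sum_of_subset
          intro i hi
          have := hl.two_le
          simp at hi ⊢
          omega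
    omega
  set r := (g q l).minFac with hrdef
  have hr : r.Prime := Nat.minFac_prime hg1
  have hrg : r ∣ g q l := Nat.minFac_dvd _
  have : Fact r.Prime := ⟨hr⟩
  have hrn : r - 1 ∣ n := h.pred_dvd hr (hrg.trans hgd)
  have hpow : (q : ZMod r) ^ l = 1 := by
    have h1 : r ∣ q ^ l - 1 := by
      rw [← g_mul q l (by omega)]
      exact Dvd.dvd.mul_right hrg _
    have h2 : ((q ^ l - 1 : ℕ) : ZMod r) = 0 := (ZMod.natCast_eq_zero_iff _ _).2 h1
    rw [Nat.cast_sub (Nat.one_le_pow _ _ (by omega))] at h2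
    push_cast at h2
    exact sub_eq_zero.1 h2
  have hq0 : (q : ZMod r) ≠ 0 := by
    intro h0
    rw [h0, zero_pow hl.ne_zero] at hpow
    exact zero_ne_one hpow
  have hord := orderOf_dvd_of_pow_eq_one hpow
  rcases (Nat.dvd_prime hl).1 hord with h1 | h1
  · rw [orderOf_eq_one_iff] at h1
    have h2 : ((g q l : ℕ) : ZMod r) = (l : ZMod r) := by
      unfold g
      push_cast
      rw [h1]
      simp
    have h3 : ((g q l : ℕ) : ZMod r) = 0 := (ZMod.natCast_eq_zero_iff _ _).2 hrg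
    rw [h3] at h2
    have h4 : r ∣ l := (ZMod.natCast_eq_zero_iff _ _).1 h2.symm
    have h5 : r = l := (Nat.prime_dvd_prime_iff_eq hr hl).1 h4
    have h6 : ((q - 1 : ℕ) : ZMod r) = 0 := by
      rw [Nat.cast_sub (by omega)]
      rw [h1]; simp
    have h7 : r ∣ q - 1 := (ZMod.natCast_eq_zero_iff _ _).1 h6
    have h8 := Nat.le_of_dvd (by omega) h7
    omega
  · have h2 : orderOf (q : ZMod r) ∣ r - 1 := ZMod.orderOf_dvd_card_sub_one hq0
    rw [h1] at h2
    exact hlS (hs l hl (h2.trans hrn))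

/-- some element of a list satisfies a test -/
def anyN (f : ℕ → Bool) (l : List ℕ) : Bool :=
  List.rec (motive := fun _ => Bool) false
    (fun a _ ih => Bool.rec (motive := fun _ => Bool) ih true (f a)) l

lemma anyN_sound {f : ℕ → Bool} {l : List ℕ} (h : anyN f l = true) : ∃ a ∈ l, f a = true := by
  induction l with
  | nil => exact absurd (show (false : Bool) = true from h) Bool.false_ne_true
  | cons a l ih =>
    have h' : Bool.rec (motive := fun _ => Bool) (anyN f l) true (f a) = true := h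
    cases hf : f a with
    | true => exact ⟨a, by simp, hf⟩
    | false =>
      rw [hf] at h'
      obtain ⟨b, hb, hb'⟩ := ih h'
      exact ⟨b, by simp [hb], hb'⟩

/-- closure check for a list of allowed values of `v_q(n) + 1` -/
def closed (S al bad : List ℕ) : Bool :=
  anyN (Nat.beq 1) al && al.all fun N => S.all fun l =>
    anyN (Nat.beq (Nat.mul l N)) al || anyN (fun b => Nat.beq (Nat.mod (Nat.mul l N) b) 0) bad

lemma closed_sound {S al bad : List ℕ} (h : closed S al bad = true) (N : ℕ) (hN : 0 < N)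
    (hs : ∀ p : ℕ, p.Prime → p ∣ N → p ∈ S) (hb : ∀ b ∈ bad, ¬ b ∣ N) : N ∈ al := by
  unfold closed at h
  rw [Bool.and_eq_true] at h
  obtain ⟨h1, h2⟩ := h
  induction N using Nat.strong_induction_on with
  | _ N ih =>
    by_cases hN1 : N = 1
    · obtain ⟨a, ha, hb⟩ := anyN_sound h1
      rw [hN1, Nat.eq_of_beq_eq_true hb]
      exact ha
    · obtain ⟨p, hp, hpN⟩ := Nat.exists_prime_and_dvd hN1
      obtain ⟨M, rfl⟩ := hpN
      have hM : 0 < M := Nat.pos_of_ne_zero (by rintro rfl; simp at hN)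
      have hlt : M < p * M := by
        have := hp.two_le
        nlinarith
      have h3 := ih M hlt hM (fun r hr hrM => hs r hr (hrM.mul_left p))
        (fun b hb' hbM => hb b hb' (hbM.mul_left p))
      have h4 := List.all_eq_true.1 h2 M h3
      have h5 := List.all_eq_true.1 h4 p (hs p hp (Dvd.intro M rfl))
      rw [Bool.or_eq_true] at h5
      rcases h5 with h5 | h5
      · obtain ⟨a, ha, hb⟩ := anyN_sound h5
        have h6 : p * M = a := Nat.eq_of_beq_eq_true hb
        rw [h6]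
        exact ha
      · obtain ⟨b, hb1, hb2⟩ := anyN_sound h5
        exfalso
        apply hb b hb1
        exact Nat.dvd_of_mod_eq_zero (Nat.eq_of_beq_eq_true hb2)

/-- check of one certificate `(d, v, k, x)` for the base `q` -/
def certChk (S : List ℕ) (q : ℕ) (c : ℕ × ℕ × ℕ × ℕ) : Bool :=
  Nat.beq ((q ^ c.1 - 1) % ((q - 1) * c.2.1)) 0 && Nat.beq (Nat.gcd c.2.1 S.prod) 1 &&
    Nat.beq (Nat.gcd c.2.2.2 c.2.1) 1 && Nat.ble c.2.1 (2 ^ c.2.2.1) && Nat.ble 2 c.2.1 &&
    ! Nat.beq (iter S c.2.1 c.2.2.1 c.2.2.2 % c.2.1) 1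

lemma certChk_sound {S : List ℕ} {n q : ℕ} {c : ℕ × ℕ × ℕ × ℕ} (h : Sol n) (hs : Sm S n)
    (hS : ∀ p ∈ S, 2 ≤ p) (hq : q.Prime) (hc : certChk S q c = true) :
    ¬ c.1 ∣ n.factorization q + 1 := by
  intro hd
  unfold certChk at hc
  simp only [Bool.and_eq_true, Bool.not_eq_true', Nat.beq_eq, Nat.ble_eq] at hc
  obtain ⟨⟨⟨⟨⟨h1, h2⟩, h3⟩, h4⟩, h5⟩, h6⟩ := hc
  have hq2 := hq.two_le
  have h7 : c.2.1 ∣ g q c.1 := by
    have h8 := Nat.dvd_of_mod_eq_zero h1
    rw [← g_mul q c.1 (by omega), mul_comm (g q c.1)] at h8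
    exact Nat.dvd_of_mul_dvd_mul_left (by omega) h8
  have h8 := cert (x := c.2.2.2) h hs hS (h7.trans (g_dvd_sigma h.1 hq hd)) h2 h3 h4 (by omega)
  rw [h8] at h6
  simp at h6

/-- The values of `v_q(n) + 1` for a smooth solution. -/
theorem exponents {S : List ℕ} {n q B : ℕ} (h : Sol n) (hs : Sm S n) (hS : ∀ p ∈ S, 2 ≤ p)
    (hB : ∀ p ∈ S, p ≤ B) (hB2 : ∀ p : ℕ, p.Prime → p ≤ B → p ∈ S) (hq : q.Prime) (hqS : q ∈ S)
    (al : List ℕ) (cs : List (ℕ × ℕ × ℕ × ℕ)) (hc : cs.all (certChk S q) = true)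
    (hcl : closed S al (cs.map Prod.fst) = true) : n.factorization q + 1 ∈ al := by
  apply closed_sound hcl _ (Nat.succ_pos _)
  · intro p hp hpd
    exact large h hs hB hB2 hq hqS hp hpd
  · intro b hb
    obtain ⟨c, hc1, rfl⟩ := List.mem_map.1 hb
    exact certChk_sound h hs hS hq (List.all_eq_true.1 hc c hc1)

end Pool.Agent.SmS
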