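import Pool.Agent.SmS.T31
import Pool.Agent.SmS.C31a

/-!
# Smooth solutions of `φ(σ(n)) = n`: the list for the primes up to 31
-/

set_option autoImplicit false

open Finset ArithmeticFunction

namespace Pool.Agent.SmS.D31

lemma chk : ∀ s ∈ subs, go solsN (lev3.res s.1 :: lev2.res s.2 :: rest) 1 1 1 1 1 = true := by
  intro s hs
  simp only [subs, List.mem_cons, List.not_mem_nil, or_false] at hs
  rcases hs with rfl | rfl | rfl
  · exact chk0
  · exact chk1
  · exact chk2

/-- the data for the primes up to 31 -/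
def D : Data where
  B := 31
  S := S
  pr := pr
  tab := tab
  l1 := lev3
  l2 := lev2
  rest := rest
  mm := mm
  subs := subs
  sols := solsN
  S_prime := S_prime
  S_le := by decide
  S_all := S_all
  S_nodup := by decide
  pr_ok := pr_ok
  tab_q := by decide +kernel
  tab_nodup := by decide +kernel
  tab_chk := List.all_eq_true.1 tab_chk
  lv_eq := lv_eq
  lv_chk := lv_chk
  cover := cover
  chk := chk

lemma vec_chk : (vec.all fun a => ver (vl a) tab a 1 1 1 1 1) = true := by
  decide +kernel

lemma vec_sols : vec.map vl = solsN := by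
  decide +kernel

theorem main (n : ℕ) : (Sol n ∧ ∀ p : ℕ, p.Prime → p ∣ n → p ≤ 31) ↔ n ∈ solsN := by
  constructor
  · rintro ⟨h, hs⟩
    exact D.forward h (fun p hp hd => S_all p hp (hs p hp hd))
  · intro h
    rw [← vec_sols] at h
    obtain ⟨a, ha, rfl⟩ := List.mem_map.1 h
    obtain ⟨h1, h2⟩ := D.backward (List.all_eq_true.1 vec_chk a ha)
    exact ⟨h1, fun p hp hd => D.S_le p (h2 p hp hd)⟩

end Pool.Agent.SmS.D31
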