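import Pool.Agent.SmS.Core

/-!
# Smooth solutions of `φ(σ(n)) = n`: the verified search
-/

set_option autoImplicit false

open Finset ArithmeticFunction

namespace Pool.Agent.SmS

/-- one choice for the exponent of a prime `q`: the power, its contribution `c`, the primes of
`S` dividing `σ(power)` and the product of the other primes -/
structure Opt where
  pw : ℕ
  c : ℕ
  T : List ℕ
  rho : ℕ


/-- a level of the search: the choices, bounds for what the later levels contribute, and the
primes occurring in the lists `T` from this level on, respectively later -/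
structure Lvl where
  os : List Opt
  lo : ℕ
  hi : ℕ
  tm : ℕ
  tmr : ℕ

/-- adding the primes of a list to the products `t = ∏ p` and `w = ∏ (p - 1)` -/
def extT (T : List ℕ) (k : ℕ → ℕ → Bool) : ℕ → ℕ → Bool :=
  List.rec (motive := fun _ => ℕ → ℕ → Bool) k
    (fun p _ ih t w => Bool.rec (motive := fun _ => Bool)
      (ih (Nat.mul t p) (Nat.mul w (Nat.pred p))) (ih t w) (Nat.beq (Nat.mod t p) 0)) T

/-- least common multiple -/
def lc (a b : ℕ) : ℕ := Nat.div (Nat.mul a b) (Nat.gcd a b)

/-- the choices of a level which pass the tests are explored by `sub` -/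
def loop (X Y U V R : ℕ) (sub : Opt → Bool) (l : List Opt) : Bool :=
  List.rec (motive := fun _ => Bool) true
    (fun o _ rest =>
      Bool.rec (motive := fun _ => Bool) rest
        (Bool.rec (motive := fun _ => Bool) rest
          (Bool.rec (motive := fun _ => Bool) rest
            (Bool.rec (motive := fun _ => Bool) false rest (sub o))
            (Nat.beq (Nat.gcd R o.rho) 1))
          (Nat.beq (Nat.mod (Nat.mul U o.c) (Nat.mul V o.pw)) 0))
        (Nat.beq (Nat.mod (Nat.mul X o.pw) (Nat.mul Y o.c)) 0)) l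

/-- depth first search through the choices -/
def go (sols : List ℕ) (lv : List Lvl) : ℕ → ℕ → ℕ → ℕ → ℕ → Bool :=
  List.rec (motive := fun _ => ℕ → ℕ → ℕ → ℕ → ℕ → Bool)
    (fun A C t w _ => Bool.rec (motive := fun _ => Bool) true (sols.any (Nat.beq A))
      (Nat.beq (Nat.mul A t) (Nat.mul C w)))
    (fun l _ ih A C t w R =>
      loop (Nat.mul (Nat.mul A l.lo) (lc t l.tm)) (Nat.mul C w) (Nat.mul C l.hi) (Nat.mul A t) R
        (fun o => extT o.T (fun t' w' =>
          Bool.rec (motive := fun _ => Bool) true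
            (Bool.rec (motive := fun _ => Bool) true
              (ih (Nat.mul A o.pw) (Nat.mul C o.c) t' w' (Nat.mul R o.rho))
              (Nat.beq (Nat.mod (Nat.mul (Nat.mul C o.c) l.hi)
                (Nat.mul (Nat.mul A o.pw) t')) 0))
            (Nat.beq (Nat.mod (Nat.mul (Nat.mul (Nat.mul A o.pw) l.lo) (lc t' l.tmr))
              (Nat.mul (Nat.mul C o.c) w')) 0)) t w) l.os) lv

lemma loop_sound {X Y U V R : ℕ} {sub : Opt → Bool} {l : List Opt}
    (h : loop X Y U V R sub l = true) : ∀ o ∈ l, Y * o.c ∣ X * o.pw → V * o.pw ∣ U * o.c →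
      Nat.Coprime R o.rho → sub o = true := by
  induction l with
  | nil => intro o ho; simp at ho
  | cons a l ih =>
    have e : loop X Y U V R sub (a :: l) = Bool.rec (motive := fun _ => Bool) (loop X Y U V R sub l)
        (Bool.rec (motive := fun _ => Bool) (loop X Y U V R sub l)
          (Bool.rec (motive := fun _ => Bool) (loop X Y U V R sub l)
            (Bool.rec (motive := fun _ => Bool) false (loop X Y U V R sub l) (sub a))
            (Nat.beq (Nat.gcd R a.rho) 1))
          (Nat.beq (Nat.mod (Nat.mul U a.c) (Nat.mul V a.pw)) 0))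
        (Nat.beq (Nat.mod (Nat.mul X a.pw) (Nat.mul Y a.c)) 0) := rfl
    rw [e] at h
    have key : loop X Y U V R sub l = true ∧ (Y * a.c ∣ X * a.pw → V * a.pw ∣ U * a.c →
        Nat.Coprime R a.rho → sub a = true) := by
      cases h1 : Nat.beq (Nat.mod (Nat.mul X a.pw) (Nat.mul Y a.c)) 0 with
      | false =>
        rw [h1] at h
        refine ⟨h, fun h2 => ?_⟩
        have h3 : Nat.mod (Nat.mul X a.pw) (Nat.mul Y a.c) = 0 := Nat.mod_eq_zero_of_dvd h2
        rw [h3] at h1
        exact absurd h1 (by decide)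
      | true =>
        rw [h1] at h
        cases h4 : Nat.beq (Nat.mod (Nat.mul U a.c) (Nat.mul V a.pw)) 0 with
        | false =>
          rw [h4] at h
          refine ⟨h, fun _ h2 => ?_⟩
          have h3 : Nat.mod (Nat.mul U a.c) (Nat.mul V a.pw) = 0 := Nat.mod_eq_zero_of_dvd h2
          rw [h3] at h4
          exact absurd h4 (by decide)
        | true =>
          rw [h4] at h
          cases h5 : Nat.beq (Nat.gcd R a.rho) 1 with
          | false =>
            rw [h5] at h
            refine ⟨h, fun _ _ h2 => ?_⟩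
            have h3 : Nat.gcd R a.rho = 1 := h2
            rw [h3] at h5
            exact absurd h5 (by decide)
          | true =>
            rw [h5] at h
            cases h6 : sub a with
            | false =>
              rw [h6] at h
              exact absurd (show (false : Bool) = true from h) Bool.false_ne_true
            | true => rw [h6] at h; exact ⟨h, fun _ _ _ => rfl⟩
    intro o ho
    rcases List.mem_cons.1 ho with rfl | ho
    · exact key.2
    · exact ih key.1 o ho

lemma beq_t {a b : ℕ} (h : a = b) : Nat.beq a b = true := by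
  subst h; exact Nat.beq_refl a

/-- product of the elements of a finite set -/
def Pd (F : Finset ℕ) : ℕ := ∏ p ∈ F, p

/-- product of `p - 1` over a finite set -/
def W (F : Finset ℕ) : ℕ := ∏ p ∈ F, (p - 1)

lemma Pd_dvd_iff {F : Finset ℕ} (hF : ∀ p ∈ F, p.Prime) {p : ℕ} (hp : p.Prime) :
    p ∣ Pd F ↔ p ∈ F := by
  unfold Pd
  constructor
  · intro h
    obtain ⟨a, ha, hpa⟩ := (hp.prime.dvd_finsetProd_iff _).1 h
    rwa [(Nat.prime_dvd_prime_iff_eq hp (hF a ha)).1 hpa]
  · intro h
    exact Finset.dvd_prod_of_mem _ h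

lemma extT_eq (T : List ℕ) (k : ℕ → ℕ → Bool) (F : Finset ℕ) (hF : ∀ p ∈ F, p.Prime)
    (hT : ∀ p ∈ T, p.Prime) :
    extT T k (Pd F) (W F) = k (Pd (F ∪ T.toFinset)) (W (F ∪ T.toFinset)) := by
  induction T generalizing F with
  | nil => simp [extT]
  | cons p T ih =>
    have hp : p.Prime := hT p (by simp)
    have hT' : ∀ p ∈ T, p.Prime := fun r hr => hT r (by simp [hr])
    have e : extT (p :: T) k (Pd F) (W F) = Bool.rec (motive := fun _ => Bool)
        (extT T k (Nat.mul (Pd F) p) (Nat.mul (W F) (Nat.pred p))) (extT T k (Pd F) (W F))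
        (Nat.beq (Nat.mod (Pd F) p) 0) := rfl
    rw [e]
    have e2 : F ∪ (p :: T).toFinset = insert p F ∪ T.toFinset := by
      ext x; simp only [List.toFinset_cons, Finset.mem_union, Finset.mem_insert]; tauto
    by_cases hpF : p ∈ F
    · have h1 : Nat.mod (Pd F) p = 0 := Nat.mod_eq_zero_of_dvd ((Pd_dvd_iff hF hp).2 hpF)
      rw [h1, beq_t rfl]
      show extT T k (Pd F) (W F) = _
      rw [ih F hF hT', e2, Finset.insert_eq_of_mem hpF]
    · have h1 : Nat.beq (Nat.mod (Pd F) p) 0 = false := by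
        rw [Bool.eq_false_iff]
        intro h
        exact hpF ((Pd_dvd_iff hF hp).1 (Nat.dvd_of_mod_eq_zero (Nat.eq_of_beq_eq_true h)))
      rw [h1]
      show extT T k (Nat.mul (Pd F) p) (Nat.mul (W F) (Nat.pred p)) = _
      have h2 : Nat.mul (Pd F) p = Pd (insert p F) := by
        unfold Pd
        rw [Finset.prod_insert hpF]
        exact Nat.mul_comm _ _
      have h3 : Nat.mul (W F) (Nat.pred p) = W (insert p F) := by
        unfold W
        rw [Finset.prod_insert hpF]
        exact Nat.mul_comm _ _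
      rw [h2, h3, ih (insert p F), e2]
      · intro r hr
        rcases Finset.mem_insert.1 hr with rfl | hr
        · exact hp
        · exact hF r hr
      · exact hT'

/-- the non-`S` parts along a list of choices are coprime -/
def Cop : ℕ → List Opt → Prop
  | _, [] => True
  | R, o :: cs => Nat.Coprime R o.rho ∧ Cop (R * o.rho) cs

/-- the set of primes of `S` collected along a list of choices -/
def accT : Finset ℕ → List Opt → Finset ℕ
  | F, [] => F
  | F, o :: cs => accT (F ∪ o.T.toFinset) cs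

lemma subset_accT (F : Finset ℕ) (cs : List Opt) : F ⊆ accT F cs := by
  induction cs generalizing F with
  | nil => exact Finset.Subset.refl _
  | cons o cs ih => exact Finset.subset_union_left.trans (ih _)

lemma mem_accT {F : Finset ℕ} {cs : List Opt} {p : ℕ} (h : p ∈ accT F cs) :
    p ∈ F ∨ ∃ o ∈ cs, p ∈ o.T := by
  induction cs generalizing F with
  | nil => exact Or.inl h
  | cons o cs ih =>
    rcases ih h with h | ⟨o', ho', hp⟩
    · rcases Finset.mem_union.1 h with h | h
      · exact Or.inl h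
      · exact Or.inr ⟨o, by simp, by simpa using h⟩
    · exact Or.inr ⟨o', by simp [ho'], hp⟩

/-- membership of the choices in the levels -/
def Ch (lv : List Lvl) (cs : List Opt) : Prop :=
  List.Forall₂ (fun (l : Lvl) (o : Opt) => o ∈ l.os) lv cs

lemma Ch.mem {lv : List Lvl} {cs : List Opt} (hcs : Ch lv cs) :
    ∀ o' ∈ cs, ∃ l' ∈ lv, o' ∈ l'.os := by
  induction hcs with
  | nil => intro o' ho'; simp at ho'
  | cons hab _ ih =>
    intro o' ho'
    rcases List.mem_cons.1 ho' with rfl | ho'
    · exact ⟨_, by simp, hab⟩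
    · obtain ⟨l', hl', ho''⟩ := ih o' ho'
      exact ⟨l', by simp [hl'], ho''⟩

/-- the bounds of every level are correct -/
def LvOK (G : Finset ℕ) : List Lvl → Prop
  | [] => True
  | l :: lv => ((∀ cs : List Opt, Ch lv cs →
      (cs.map Opt.pw).prod ∣ l.lo ∧ (cs.map Opt.c).prod * W G ∣ l.hi) ∧
      (∀ o ∈ l.os, ∀ p ∈ o.T, p ∣ l.tm) ∧
      (∀ l' ∈ lv, ∀ o ∈ l'.os, ∀ p ∈ o.T, p ∣ l.tmr ∧ p ∣ l.tm)) ∧ LvOK G lv

lemma lc_eq (a b : ℕ) : lc a b = Nat.lcm a b := rfl

lemma Pd_dvd {F : Finset ℕ} (hF : ∀ p ∈ F, p.Prime) {x : ℕ} (h : ∀ p ∈ F, p ∣ x) : Pd F ∣ x :=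
  Finset.prod_primes_dvd _ (fun p hp => (hF p hp).prime) h

lemma go_sound (G : Finset ℕ) (sols : List ℕ) (lv : List Lvl)
    (hlv : LvOK G lv) (hT : ∀ l ∈ lv, ∀ o ∈ l.os, ∀ p ∈ o.T, p.Prime ∧ p ∈ G)
    (A C R : ℕ) (F : Finset ℕ) (hF : ∀ p ∈ F, p.Prime) (hFG : F ⊆ G)
    (h : go sols lv A C (Pd F) (W F) R = true) (cs : List Opt)
    (hcs : Ch lv cs) (hcop : Cop R cs)
    (heq : (A * (cs.map Opt.pw).prod) * Pd (accT F cs) =
      (C * (cs.map Opt.c).prod) * W (accT F cs)) :
    A * (cs.map Opt.pw).prod ∈ sols := by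
  induction lv generalizing A C R F cs with
  | nil =>
    cases hcs
    simp only [List.map_nil, List.prod_nil, mul_one, accT] at heq ⊢
    have e : go sols [] A C (Pd F) (W F) R = Bool.rec (motive := fun _ => Bool) true
      (sols.any (Nat.beq A)) (Nat.beq (Nat.mul A (Pd F)) (Nat.mul C (W F))) := rfl
    rw [e] at h
    have h1 : Nat.beq (Nat.mul A (Pd F)) (Nat.mul C (W F)) = true := beq_t heq
    rw [h1] at h
    obtain ⟨b, hb1, hb2⟩ := List.any_eq_true.1 h
    rw [Nat.eq_of_beq_eq_true hb2]
    exact hb1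
  | cons l lv ih =>
    rcases hcs with _ | ⟨hol, hcs⟩
    rename_i o cs
    have e : go sols (l :: lv) A C (Pd F) (W F) R =
      loop (Nat.mul (Nat.mul A l.lo) (lc (Pd F) l.tm)) (Nat.mul C (W F)) (Nat.mul C l.hi)
        (Nat.mul A (Pd F)) R
        (fun o => extT o.T (fun t' w' =>
          Bool.rec (motive := fun _ => Bool) true
            (Bool.rec (motive := fun _ => Bool) true
              (go sols lv (Nat.mul A o.pw) (Nat.mul C o.c) t' w' (Nat.mul R o.rho))
              (Nat.beq (Nat.mod (Nat.mul (Nat.mul C o.c) l.hi)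
                (Nat.mul (Nat.mul A o.pw) t')) 0))
            (Nat.beq (Nat.mod (Nat.mul (Nat.mul (Nat.mul A o.pw) l.lo) (lc t' l.tmr))
              (Nat.mul (Nat.mul C o.c) w')) 0)) (Pd F) (W F)) l.os := rfl
    rw [e] at h
    obtain ⟨hc1, hc2⟩ := hcop
    obtain ⟨⟨hl1, hl3, hl4⟩, hl2⟩ := hlv
    obtain ⟨hlo, hhi⟩ := hl1 cs hcs
    simp only [List.map_cons, List.prod_cons, accT] at heq ⊢
    set F' := F ∪ o.T.toFinset with hF'
    have hoT : ∀ p ∈ o.T, p.Prime ∧ p ∈ G := hT l (by simp) o hol
    have hF'p : ∀ p ∈ F', p.Prime := by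
      intro p hp
      rcases Finset.mem_union.1 hp with hp | hp
      · exact hF p hp
      · exact (hoT p (by simpa using hp)).1
    have hF'G : F' ⊆ G := by
      intro p hp
      rcases Finset.mem_union.1 hp with hp | hp
      · exact hFG hp
      · exact (hoT p (by simpa using hp)).2
    have hsub : F' ⊆ accT F' cs := subset_accT _ _
    have hmem : ∀ p ∈ accT F' cs, p.Prime ∧ p ∈ G ∧ (p ∈ F' ∨ (p ∣ l.tmr ∧ p ∣ l.tm)) := by
      intro p hp
      rcases mem_accT hp with hp | ⟨o', ho', hp⟩
      · exact ⟨hF'p p hp, hF'G hp, Or.inl hp⟩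
      · obtain ⟨l', hl', ho''⟩ := Ch.mem hcs o' ho'
        have h7 := hT l' (by simp [hl']) o' ho'' p hp
        exact ⟨h7.1, h7.2, Or.inr (hl4 l' hl' o' ho'' p hp)⟩
    have hfp : ∀ p ∈ accT F' cs, p.Prime := fun p hp => (hmem p hp).1
    have hsub2 : accT F' cs ⊆ G := fun p hp => (hmem p hp).2.1
    have hW1 : W F ∣ W (accT F' cs) :=
      Finset.prod_dvd_prod_of_subset _ _ _ (Finset.subset_union_left.trans hsub)
    have hW2 : W F' ∣ W (accT F' cs) := Finset.prod_dvd_prod_of_subset _ _ _ hsub
    have hW3 : W (accT F' cs) ∣ W G := Finset.prod_dvd_prod_of_subset _ _ _ hsub2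
    have hP1 : Pd F' ∣ Pd (accT F' cs) := Finset.prod_dvd_prod_of_subset _ _ _ hsub
    have hP0 : Pd F ∣ Pd (accT F' cs) :=
      Finset.prod_dvd_prod_of_subset _ _ _ (Finset.subset_union_left.trans hsub)
    have hL1 : Pd (accT F' cs) ∣ lc (Pd F) l.tm := by
      apply Pd_dvd hfp
      intro p hp
      rw [lc_eq]
      rcases (hmem p hp).2.2 with h7 | h7
      · rcases Finset.mem_union.1 h7 with h8 | h8
        · exact ((Pd_dvd_iff hF (hF p h8)).2 h8).trans (Nat.dvd_lcm_left _ _)
        · exact (hl3 o hol p (by simpa using h8)).trans (Nat.dvd_lcm_right _ _)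
      · exact h7.2.trans (Nat.dvd_lcm_right _ _)
    have hL2 : Pd (accT F' cs) ∣ lc (Pd F') l.tmr := by
      apply Pd_dvd hfp
      intro p hp
      rw [lc_eq]
      rcases (hmem p hp).2.2 with h7 | h7
      · exact ((Pd_dvd_iff hF'p (hF'p p h7)).2 h7).trans (Nat.dvd_lcm_left _ _)
      · exact h7.1.trans (Nat.dvd_lcm_right _ _)
    have hlow : ∀ w t, w ∣ W (accT F' cs) → Pd (accT F' cs) ∣ t →
        C * o.c * w ∣ A * o.pw * l.lo * t := by
      intro w t hw ht
      calc C * o.c * w ∣ (C * (o.c * (cs.map Opt.c).prod)) * W (accT F' cs) := by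
            apply mul_dvd_mul _ hw
            rw [← mul_assoc]
            exact Dvd.intro _ rfl
        _ = (A * (o.pw * (cs.map Opt.pw).prod)) * Pd (accT F' cs) := heq.symm
        _ = (A * o.pw) * ((cs.map Opt.pw).prod * Pd (accT F' cs)) := by ring
        _ ∣ (A * o.pw) * (l.lo * t) := mul_dvd_mul_left _ (mul_dvd_mul hlo ht)
        _ = A * o.pw * l.lo * t := by ring
    have hupp : ∀ t, t ∣ Pd (accT F' cs) → A * o.pw * t ∣ C * o.c * l.hi := by
      intro t ht
      calc A * o.pw * t ∣ (A * (o.pw * (cs.map Opt.pw).prod)) * Pd (accT F' cs) := by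
            apply mul_dvd_mul _ ht
            rw [← mul_assoc]
            exact Dvd.intro _ rfl
        _ = (C * (o.c * (cs.map Opt.c).prod)) * W (accT F' cs) := heq
        _ = (C * o.c) * ((cs.map Opt.c).prod * W (accT F' cs)) := by ring
        _ ∣ (C * o.c) * ((cs.map Opt.c).prod * W G) :=
            mul_dvd_mul_left _ (mul_dvd_mul_left _ hW3)
        _ ∣ C * o.c * l.hi := mul_dvd_mul_left _ hhi
    have h1 := loop_sound h o hol (by
        have := hlow _ _ hW1 hL1
        calc Nat.mul C (W F) * o.c = C * o.c * W F := by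
              show C * W F * o.c = _; ring
          _ ∣ A * o.pw * l.lo * lc (Pd F) l.tm := this
          _ = Nat.mul (Nat.mul A l.lo) (lc (Pd F) l.tm) * o.pw := by
              show _ = A * l.lo * lc (Pd F) l.tm * o.pw; ring) (by
        have := hupp _ hP0
        calc Nat.mul A (Pd F) * o.pw = A * o.pw * Pd F := by
              show A * Pd F * o.pw = _; ring
          _ ∣ C * o.c * l.hi := this
          _ = Nat.mul C l.hi * o.c := by
              show _ = C * l.hi * o.c; ring) hc1
    have b3 : Nat.beq (Nat.mod (Nat.mul (Nat.mul (Nat.mul A o.pw) l.lo) (lc (Pd F') l.tmr))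
        (Nat.mul (Nat.mul C o.c) (W F'))) 0 = true :=
      beq_t (Nat.mod_eq_zero_of_dvd (hlow _ _ hW2 hL2))
    have b4 : Nat.beq (Nat.mod (Nat.mul (Nat.mul C o.c) l.hi)
        (Nat.mul (Nat.mul A o.pw) (Pd F'))) 0 = true :=
      beq_t (Nat.mod_eq_zero_of_dvd (hupp _ hP1))
    rw [extT_eq _ _ _ hF (fun p hp => (hoT p hp).1), ← hF'] at h1
    rw [b3, b4] at h1
    have h2 := ih hl2 (fun l' hl' => hT l' (by simp [hl'])) (A * o.pw) (C * o.c) (R * o.rho) F'
      hF'p hF'G h1 cs hcs hc2 (by
        rw [mul_assoc A, mul_assoc C]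
        exact heq)
    rw [mul_assoc] at h2
    exact h2

end Pool.Agent.SmS
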