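import Pool.Agent.SmS.D31

/-!
# Smooth solutions of `φ(σ(n)) = n`: check of the table for the primes up to 31
-/

set_option autoImplicit false

open Finset ArithmeticFunction

namespace Pool.Agent.SmS.D31

lemma S_prime : ∀ p ∈ S, p.Prime := by
  intro p hp
  simp only [S, List.mem_cons, List.not_mem_nil, or_false] at hp
  rcases hp with rfl | rfl | rfl | rfl | rfl | rfl | rfl | rfl | rfl | rfl | rfl <;>
    norm_num

lemma S_all : ∀ p : ℕ, p.Prime → p ≤ 31 → p ∈ S := by
  intro p hp h
  interval_cases p <;> first | decide | (exfalso; revert hp; norm_num)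

lemma prK_chk : (prK.all fun a => primeChk a.1 a.2 && ! S.elem a.1) = true := by
  decide +kernel

lemma pr_ok : ∀ p ∈ pr, p.Prime ∧ p ∉ S := by
  intro p hp
  obtain ⟨a, ha, rfl⟩ := List.mem_map.1 hp
  have h := List.all_eq_true.1 prK_chk a ha
  rw [Bool.and_eq_true] at h
  exact ⟨primeChk_sound h.1, by simpa using h.2⟩

lemma tab_chk : (tab.all (entChk S pr)) = true := by
  decide +kernel

lemma lv_eq : tabEq (lev3 :: lev2 :: rest) tab = true := by
  decide +kernel

lemma lv_chk : lvChk (S.map fun p => p - 1).prod (lev3 :: lev2 :: rest) mm = true := by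
  decide +kernel

lemma cover : coverChk lev3.os lev2.os subs = true := by
  decide +kernel

end Pool.Agent.SmS.D31
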