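import Pool.Agent.SmS.Search

/-!
# Smooth solutions of `φ(σ(n)) = n`: tables of factorisations
-/

set_option autoImplicit false

open Finset ArithmeticFunction

namespace Pool.Agent.SmS

/-- `(q ^ N - 1) / (q - 1)` is the product of the prime powers `us` and of the primes `rs` -/
structure Row where
  N : ℕ
  us : List (ℕ × ℕ)
  rs : List ℕ

/-- the `S`-part of a row -/
def Row.u (r : Row) : ℕ := (r.us.map fun a => a.1 ^ a.2).prod

/-- the choice belonging to a row -/
def Row.opt (q : ℕ) (r : Row) : Opt :=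
  ⟨q ^ (r.N - 1), r.u * (r.rs.map fun x => x - 1).prod, r.us.map Prod.fst, r.rs.prod⟩

/-- `m = u ρ` with `ρ` squarefree and prime to `G`, `c = u φ(ρ)`, and `F` the primes of `u` -/
structure Dec (G : Finset ℕ) (m c ρ : ℕ) (F : Finset ℕ) : Prop where
  ex : ∃ u : ℕ, u ≠ 0 ∧ m = u * ρ ∧ c = u * Nat.totient ρ ∧ F = u.primeFactors
  sub : F ⊆ G
  sq : Squarefree ρ
  out : ∀ p : ℕ, p.Prime → p ∣ ρ → p ∉ G

lemma Dec.one (G : Finset ℕ) : Dec G 1 1 1 ∅ :=
  ⟨⟨1, by simp⟩, by simp, squarefree_one, fun p hp h => by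
    exact absurd (Nat.dvd_one.1 h) hp.one_lt.ne'⟩

lemma Dec.mul {G : Finset ℕ} {m₁ c₁ ρ₁ m₂ c₂ ρ₂ : ℕ} {F₁ F₂ : Finset ℕ}
    (h₁ : Dec G m₁ c₁ ρ₁ F₁) (h₂ : Dec G m₂ c₂ ρ₂ F₂) (h : Nat.Coprime ρ₁ ρ₂) :
    Dec G (m₁ * m₂) (c₁ * c₂) (ρ₁ * ρ₂) (F₁ ∪ F₂) := by
  obtain ⟨⟨u₁, hu₁, e₁, f₁, g₁⟩, s₁, q₁, o₁⟩ := h₁
  obtain ⟨⟨u₂, hu₂, e₂, f₂, g₂⟩, s₂, q₂, o₂⟩ := h₂
  refine ⟨⟨u₁ * u₂, mul_ne_zero hu₁ hu₂, ?_, ?_, ?_⟩, Finset.union_subset s₁ s₂, ?_, ?_⟩
  · rw [e₁, e₂]; ring
  · rw [f₁, f₂, Nat.totient_mul h]; ring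
  · rw [g₁, g₂, Nat.primeFactors_mul hu₁ hu₂]
  · exact (Nat.squarefree_mul_iff).2 ⟨h, q₁, q₂⟩
  · intro p hp hd
    rcases (hp.dvd_mul).1 hd with hd | hd
    · exact o₁ p hp hd
    · exact o₂ p hp hd

lemma Dec.phi {G : Finset ℕ} {m c ρ : ℕ} {F : Finset ℕ} (h : Dec G m c ρ F) :
    Nat.totient m * Pd F = c * W F := by
  obtain ⟨⟨u, hu, e, f, g⟩, s, q, o⟩ := h
  have hc : Nat.Coprime u ρ := by
    apply Nat.Coprime.symm
    rw [Nat.coprime_comm]
    apply Nat.coprime_of_dvd
    intro p hp h1 h2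
    apply o p hp h2
    apply s
    rw [g]
    exact Nat.mem_primeFactors.2 ⟨hp, h1, hu⟩
  have h1 := Nat.totient_mul_prod_primeFactors u
  rw [e, Nat.totient_mul hc, f]
  unfold Pd W
  rw [g]
  calc Nat.totient u * Nat.totient ρ * ∏ p ∈ u.primeFactors, p
      = (Nat.totient u * ∏ p ∈ u.primeFactors, p) * Nat.totient ρ := by ring
    _ = (u * ∏ p ∈ u.primeFactors, (p - 1)) * Nat.totient ρ := by rw [h1]
    _ = u * Nat.totient ρ * ∏ p ∈ u.primeFactors, (p - 1) := by ring

/-- the relation between a factor of `σ(n)` and the corresponding choice -/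
def DR (G : Finset ℕ) (m : ℕ) (o : Opt) : Prop := Dec G m o.c o.rho o.T.toFinset

lemma dec_acc {G : Finset ℕ} {ms : List ℕ} {cs : List Opt} (h : List.Forall₂ (DR G) ms cs)
    {M C R : ℕ} {F : Finset ℕ} (hD : Dec G M C R F) (hc : Cop R cs) :
    Dec G (M * ms.prod) (C * (cs.map Opt.c).prod) (R * (cs.map Opt.rho).prod) (accT F cs) := by
  induction h generalizing M C R F with
  | nil => simpa [accT] using hD
  | cons hmo _ ih =>
    obtain ⟨hc1, hc2⟩ := hc
    have h1 := ih (hD.mul hmo hc1) hc2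
    simp only [List.map_cons, List.prod_cons, accT]
    simpa only [mul_assoc] using h1

lemma rho_dvd {G : Finset ℕ} {ms : List ℕ} {cs : List Opt} (h : List.Forall₂ (DR G) ms cs) :
    (cs.map Opt.rho).prod ∣ ms.prod := by
  induction h with
  | nil => simp
  | cons hmo _ ih =>
    rw [List.map_cons, List.prod_cons, List.prod_cons]
    apply mul_dvd_mul _ ih
    obtain ⟨u, _, hu, _⟩ := hmo.ex
    rw [hu]
    exact Dvd.intro_left _ rfl

lemma rho_out {G : Finset ℕ} {ms : List ℕ} {cs : List Opt} (h : List.Forall₂ (DR G) ms cs) :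
    ∀ p : ℕ, p.Prime → p ∣ (cs.map Opt.rho).prod → p ∉ G := by
  induction h with
  | nil => intro p hp hd; simp at hd; exact absurd hd hp.one_lt.ne'
  | cons hmo _ ih =>
    intro p hp hd
    rw [List.map_cons, List.prod_cons] at hd
    rcases hp.dvd_mul.1 hd with hd | hd
    · exact hmo.out p hp hd
    · exact ih p hp hd

lemma cop_of_squarefree (R : ℕ) (cs : List Opt) (h : Squarefree (R * (cs.map Opt.rho).prod)) :
    Cop R cs := by
  induction cs generalizing R with
  | nil => trivial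
  | cons o cs ih =>
    rw [List.map_cons, List.prod_cons, ← mul_assoc] at h
    refine ⟨?_, ih _ h⟩
    exact Nat.coprime_of_squarefree_mul (Squarefree.squarefree_of_dvd (Dvd.intro _ rfl) h)

/-- check of a row -/
def rowChk (S pr : List ℕ) (q : ℕ) (r : Row) : Bool :=
  Nat.beq ((q - 1) * (r.u * r.rs.prod) + 1) (q ^ r.N) && Nat.ble 1 r.N &&
    (r.us.all fun a => S.elem a.1 && Nat.ble 1 a.2) && (r.rs.all fun x => pr.elem x) &&
    decide r.rs.Nodup

lemma us_prime {us : List (ℕ × ℕ)} (h : ∀ a ∈ us, a.1.Prime ∧ 1 ≤ a.2) :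
    (us.map fun a : ℕ × ℕ => a.1 ^ a.2).prod ≠ 0 ∧
      (us.map fun a : ℕ × ℕ => a.1 ^ a.2).prod.primeFactors = (us.map Prod.fst).toFinset := by
  induction us with
  | nil => simp
  | cons a us ih =>
    obtain ⟨h1, h2⟩ := ih (fun b hb => h b (by simp [hb]))
    obtain ⟨h3, h4⟩ := h a (by simp)
    have h5 : a.1 ^ a.2 ≠ 0 := pow_ne_zero _ h3.ne_zero
    rw [List.map_cons, List.prod_cons, List.map_cons, List.toFinset_cons]
    refine ⟨mul_ne_zero h5 h1, ?_⟩
    rw [Nat.primeFactors_mul h5 h1, h2, Nat.primeFactors_prime_pow (by omega) h3]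
    rfl

lemma rs_prime {rs : List ℕ} (h : ∀ r ∈ rs, r.Prime) (hn : rs.Nodup) :
    Squarefree rs.prod ∧ Nat.totient rs.prod = (rs.map fun x => x - 1).prod := by
  induction rs with
  | nil => simp
  | cons r rs ih =>
    obtain ⟨hn1, hn2⟩ := List.nodup_cons.1 hn
    obtain ⟨h1, h2⟩ := ih (fun b hb => h b (by simp [hb])) hn2
    have hr := h r (by simp)
    have hc : Nat.Coprime r rs.prod := by
      rw [hr.coprime_iff_not_dvd]
      intro hd
      obtain ⟨a, ha, hra⟩ := (hr.prime.dvd_prod_iff).1 hd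
      have := (Nat.prime_dvd_prime_iff_eq hr (h a (by simp [ha]))).1 hra
      rw [this] at hn1
      exact hn1 ha
    rw [List.prod_cons, List.map_cons, List.prod_cons]
    exact ⟨(Nat.squarefree_mul_iff).2 ⟨hc, hr.squarefree, h1⟩, by
      rw [Nat.totient_mul hc, h2, Nat.totient_prime hr]⟩

lemma rowChk_sound {S pr : List ℕ} {q : ℕ} {r : Row} (hS : ∀ p ∈ S, p.Prime)
    (hpr : ∀ p ∈ pr, p.Prime ∧ p ∉ S) (hq : 2 ≤ q) (h : rowChk S pr q r = true) :
    1 ≤ r.N ∧ DR S.toFinset (g q r.N) (r.opt q) := by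
  unfold rowChk at h
  simp only [Bool.and_eq_true, Nat.beq_eq, Nat.ble_eq, List.all_eq_true, decide_eq_true_eq,
    List.elem_eq_mem] at h
  obtain ⟨⟨⟨⟨h1, h2⟩, h3⟩, h4⟩, h5⟩ := h
  refine ⟨h2, ?_⟩
  have hu := us_prime (us := r.us) (fun a ha => ⟨hS _ (h3 a ha).1, (h3 a ha).2⟩)
  have hr := rs_prime (rs := r.rs) (fun a ha => (hpr a (h4 a ha)).1) h5
  refine ⟨⟨r.u, hu.1, ?_, ?_, hu.2.symm⟩, ?_, hr.1, ?_⟩
  · show g q r.N = r.u * r.rs.prod
    have h6 := g_mul q r.N (by omega)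
    have h7 : g q r.N * (q - 1) = (r.u * r.rs.prod) * (q - 1) := by
      rw [h6, ← h1]
      simp [mul_comm]
    exact Nat.eq_of_mul_eq_mul_right (by omega) h7
  · show r.u * (r.rs.map fun x => x - 1).prod = r.u * Nat.totient r.rs.prod
    rw [hr.2]
  · intro p hp
    rw [List.mem_toFinset] at hp ⊢
    obtain ⟨a, ha, rfl⟩ := List.mem_map.1 hp
    exact (h3 a ha).1
  · intro p hp hd
    obtain ⟨a, ha, hpa⟩ := (hp.prime.dvd_prod_iff).1 hd
    rw [(Nat.prime_dvd_prime_iff_eq hp (hpr a (h4 a ha)).1).1 hpa, List.mem_toFinset]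
    exact (hpr a (h4 a ha)).2

/-- the data of one prime `q` -/
structure Ent where
  q : ℕ
  rows : List Row
  cs : List (ℕ × ℕ × ℕ × ℕ)

/-- check of the data of one prime -/
def entChk (S pr : List ℕ) (e : Ent) : Bool :=
  S.elem e.q && e.rows.all (rowChk S pr e.q) && e.cs.all (certChk S e.q) &&
    closed S (e.rows.map Row.N) (e.cs.map Prod.fst)

/-- relation between an entry and a choice -/
def ER (G : Finset ℕ) (e : Ent) (o : Opt) : Prop :=
  ∃ N : ℕ, 1 ≤ N ∧ o.pw = e.q ^ (N - 1) ∧ DR G (g e.q N) o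

lemma sigma_of_choices {G : Finset ℕ} {tab : List Ent} {cs : List Opt}
    (h : List.Forall₂ (ER G) tab cs) (hp : ∀ e ∈ tab, e.q.Prime)
    (hn : (tab.map Ent.q).Nodup) :
    (cs.map Opt.pw).prod ≠ 0 ∧
    (∀ p : ℕ, p.Prime → p ∣ (cs.map Opt.pw).prod → p ∈ tab.map Ent.q) ∧
    ∃ ms : List ℕ, List.Forall₂ (DR G) ms cs ∧ sigma 1 (cs.map Opt.pw).prod = ms.prod := by
  induction h with
  | nil =>
    refine ⟨by simp, ?_, [], List.Forall₂.nil, by simp⟩
    intro p hp' hd
    simp at hd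
    exact absurd hd hp'.one_lt.ne'
  | cons heo _ ih =>
    rename_i e o tab cs _
    obtain ⟨N, hN, hpw, hD⟩ := heo
    rw [List.map_cons, List.nodup_cons] at hn
    obtain ⟨h1, h2, ms, hms, h3⟩ := ih (fun b hb => hp b (by simp [hb])) hn.2
    have hq : e.q.Prime := hp e (by simp)
    have hc : Nat.Coprime (e.q ^ (N - 1)) (cs.map Opt.pw).prod := by
      apply Nat.Coprime.pow_left
      rw [hq.coprime_iff_not_dvd]
      intro hd
      exact hn.1 (h2 _ hq hd)
    rw [List.map_cons, List.prod_cons, hpw]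
    refine ⟨mul_ne_zero (pow_ne_zero _ hq.ne_zero) h1, ?_, g e.q N :: ms,
      List.Forall₂.cons hD hms, ?_⟩
    · intro p hp' hd
      rw [List.map_cons, List.mem_cons]
      rcases hp'.dvd_mul.1 hd with hd | hd
      · left
        exact (Nat.prime_dvd_prime_iff_eq hp' hq).1 (hp'.dvd_of_dvd_pow hd)
      · right; exact h2 p hp' hd
    · rw [isMultiplicative_sigma.map_mul_of_coprime hc, h3, List.prod_cons,
        sigma_prime_pow _ _ hq]
      congr 2
      omega

lemma prod_factorization {L : List ℕ} (hL : L.Nodup) {n : ℕ} (hn : n ≠ 0)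
    (h : ∀ p : ℕ, p.Prime → p ∣ n → p ∈ L) : (L.map fun q => q ^ n.factorization q).prod = n := by
  conv_rhs => rw [← Nat.prod_factorization_pow_eq_self hn]
  rw [Finsupp.prod_of_support_subset (s := L.toFinset)]
  · rw [List.prod_toFinset _ hL]
  · intro p hp
    rw [Nat.support_factorization, Nat.mem_primeFactors] at hp
    rw [List.mem_toFinset]
    exact h p hp.1 hp.2.1
  · intro i _
    simp

/-- equality test for lists of naturals -/
def eqn : List ℕ → List ℕ → Bool
  | [], [] => true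
  | a :: l, b :: m => Nat.beq a b && eqn l m
  | _, _ => false

lemma eqn_sound : ∀ {l m : List ℕ}, eqn l m = true → l = m
  | [], [], _ => rfl
  | [], _ :: _, h => by simp [eqn] at h
  | _ :: _, [], h => by simp [eqn] at h
  | a :: l, b :: m, h => by
    unfold eqn at h
    rw [Bool.and_eq_true] at h
    rw [Nat.eq_of_beq_eq_true h.1, eqn_sound h.2]

/-- equality test for choices -/
def eqo (a b : Opt) : Bool :=
  Nat.beq a.pw b.pw && (Nat.beq a.c b.c && (Nat.beq a.rho b.rho && eqn a.T b.T))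

lemma eqo_sound {a b : Opt} (h : eqo a b = true) : a = b := by
  unfold eqo at h
  rw [Bool.and_eq_true, Bool.and_eq_true, Bool.and_eq_true] at h
  obtain ⟨h1, h2, h3, h4⟩ := h
  cases a; cases b
  simp only [Opt.mk.injEq]
  exact ⟨Nat.eq_of_beq_eq_true h1, Nat.eq_of_beq_eq_true h2, eqn_sound h4,
    Nat.eq_of_beq_eq_true h3⟩

/-- equality test for lists of choices -/
def eql : List Opt → List Opt → Bool
  | [], [] => true
  | a :: l, b :: m => eqo a b && eql l m
  | _, _ => false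

lemma eql_sound : ∀ {l m : List Opt}, eql l m = true → l = m
  | [], [], _ => rfl
  | [], _ :: _, h => by simp [eql] at h
  | _ :: _, [], h => by simp [eql] at h
  | a :: l, b :: m, h => by
    unfold eql at h
    rw [Bool.and_eq_true] at h
    rw [eqo_sound h.1, eql_sound h.2]

/-- the choices of the levels are those of the table -/
def tabEq : List Lvl → List Ent → Bool
  | [], [] => true
  | l :: lv, e :: tab => eql l.os (e.rows.map (Row.opt e.q)) && tabEq lv tab
  | _, _ => false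

/-- check of the bounds of the levels; `mm` lists bounds for the levels -/
def lvChk (WG : ℕ) : List Lvl → List (ℕ × ℕ) → Bool
  | [], _ => true
  | _ :: _, [] => false
  | l :: lv, m :: mm =>
    (l.os.all fun o => Nat.beq (m.1 % o.pw) 0 && Nat.beq (m.2 % o.c) 0 &&
      o.T.all fun p => Nat.beq (l.tm % p) 0) &&
    Nat.beq (l.lo % (mm.map Prod.fst).prod) 0 &&
    Nat.beq (l.hi % ((mm.map Prod.snd).prod * WG)) 0 && Nat.beq (l.tm % l.tmr) 0 &&
    (match lv with
      | [] => true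
      | l' :: _ => Nat.beq l.tmr l'.tm) && lvChk WG lv mm

lemma lvChk_prod {WG : ℕ} {lv : List Lvl} {mm : List (ℕ × ℕ)} (h : lvChk WG lv mm = true)
    {cs : List Opt} (hcs : Ch lv cs) :
    (cs.map Opt.pw).prod ∣ (mm.map Prod.fst).prod ∧
      (cs.map Opt.c).prod ∣ (mm.map Prod.snd).prod := by
  induction lv generalizing mm cs with
  | nil => cases hcs; simp
  | cons l lv ih =>
    rcases hcs with _ | ⟨hol, hcs⟩
    cases mm with
    | nil => simp [lvChk] at h
    | cons m mm =>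
      unfold lvChk at h
      simp only [Bool.and_eq_true, Nat.beq_eq, List.all_eq_true] at h
      obtain ⟨⟨⟨⟨⟨h1, -⟩, -⟩, -⟩, -⟩, h6⟩ := h
      obtain ⟨h7, h8⟩ := ih h6 hcs
      obtain ⟨⟨h9, h10⟩, -⟩ := h1 _ hol
      simp only [List.map_cons, List.prod_cons]
      exact ⟨mul_dvd_mul (Nat.dvd_of_mod_eq_zero h9) h7,
        mul_dvd_mul (Nat.dvd_of_mod_eq_zero h10) h8⟩

lemma lvChk_tm {WG : ℕ} {l : Lvl} {lv : List Lvl} {mm : List (ℕ × ℕ)}
    (h : lvChk WG (l :: lv) mm = true) :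
    ∀ l' ∈ l :: lv, ∀ o ∈ l'.os, ∀ p ∈ o.T, p ∣ l.tm := by
  induction lv generalizing l mm with
  | nil =>
    cases mm with
    | nil => simp [lvChk] at h
    | cons m mm =>
      unfold lvChk at h
      simp only [Bool.and_eq_true, Nat.beq_eq, List.all_eq_true] at h
      obtain ⟨⟨⟨⟨⟨h1, -⟩, -⟩, -⟩, -⟩, -⟩ := h
      intro l' hl' o ho p hp
      rw [List.mem_singleton] at hl'
      subst hl'
      exact Nat.dvd_of_mod_eq_zero ((h1 o ho).2 p hp)
  | cons l2 lv ih =>
    cases mm with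
    | nil => simp [lvChk] at h
    | cons m mm =>
      unfold lvChk at h
      simp only [Bool.and_eq_true, Nat.beq_eq, List.all_eq_true] at h
      obtain ⟨⟨⟨⟨⟨h1, -⟩, -⟩, h4⟩, h5⟩, h6⟩ := h
      intro l' hl' o ho p hp
      rcases List.mem_cons.1 hl' with rfl | hl'
      · exact Nat.dvd_of_mod_eq_zero ((h1 o ho).2 p hp)
      · have h7 := ih h6 l' hl' o ho p hp
        rw [← h5] at h7
        exact h7.trans (Nat.dvd_of_mod_eq_zero h4)

lemma lvChk_tmr {WG : ℕ} {l : Lvl} {lv : List Lvl} {mm : List (ℕ × ℕ)}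
    (h : lvChk WG (l :: lv) mm = true) :
    ∀ l' ∈ lv, ∀ o ∈ l'.os, ∀ p ∈ o.T, p ∣ l.tmr ∧ p ∣ l.tm := by
  intro l' hl' o ho p hp
  refine ⟨?_, lvChk_tm h l' (by simp [hl']) o ho p hp⟩
  cases lv with
  | nil => simp at hl'
  | cons l2 lv =>
    cases mm with
    | nil => simp [lvChk] at h
    | cons m mm =>
      unfold lvChk at h
      simp only [Bool.and_eq_true, Nat.beq_eq] at h
      obtain ⟨⟨⟨⟨⟨-, -⟩, -⟩, -⟩, h5⟩, h6⟩ := h
      rw [h5]
      exact lvChk_tm h6 l' hl' o ho p hp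

lemma lvChk_sound {G : Finset ℕ} {lv : List Lvl} {mm : List (ℕ × ℕ)}
    (h : lvChk (W G) lv mm = true) : LvOK G lv := by
  induction lv generalizing mm with
  | nil => trivial
  | cons l lv ih =>
    cases mm with
    | nil => simp [lvChk] at h
    | cons m mm =>
      have htm := lvChk_tm h
      have htmr := lvChk_tmr h
      unfold lvChk at h
      simp only [Bool.and_eq_true, Nat.beq_eq, List.all_eq_true] at h
      obtain ⟨⟨⟨⟨⟨-, h2⟩, h3⟩, -⟩, -⟩, h6⟩ := h
      refine ⟨⟨?_, htm l (by simp), htmr⟩, ih h6⟩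
      intro cs hcs
      obtain ⟨h7, h8⟩ := lvChk_prod h6 hcs
      exact ⟨h7.trans (Nat.dvd_of_mod_eq_zero h2),
        (mul_dvd_mul_right h8 _).trans (Nat.dvd_of_mod_eq_zero h3)⟩

/-- a part of a list -/
def rng (l : List Opt) (r : ℕ × ℕ) : List Opt := (l.drop r.1).take r.2

lemma rng_sub {l : List Opt} {r : ℕ × ℕ} {o : Opt} (h : o ∈ rng l r) : o ∈ l :=
  List.mem_of_mem_drop (List.mem_of_mem_take h)

/-- restricting the choices of a level -/
def Lvl.res (l : Lvl) (r : ℕ × ℕ) : Lvl := ⟨rng l.os r, l.lo, l.hi, l.tm, l.tmr⟩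

/-- the ranges cover all pairs of choices -/
def coverChk (a b : List Opt) (subs : List ((ℕ × ℕ) × (ℕ × ℕ))) : Bool :=
  a.all fun x => b.all fun y => subs.any fun s =>
    ((rng a s.1).any fun z => eqo x z) && ((rng b s.2).any fun z => eqo y z)

/-- All checks together. -/
structure Data where
  B : ℕ
  S : List ℕ
  pr : List ℕ
  tab : List Ent
  l1 : Lvl
  l2 : Lvl
  rest : List Lvl
  mm : List (ℕ × ℕ)
  subs : List ((ℕ × ℕ) × (ℕ × ℕ))
  sols : List ℕ
  S_prime : ∀ p ∈ S, p.Prime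
  S_le : ∀ p ∈ S, p ≤ B
  S_all : ∀ p : ℕ, p.Prime → p ≤ B → p ∈ S
  S_nodup : S.Nodup
  pr_ok : ∀ p ∈ pr, p.Prime ∧ p ∉ S
  tab_q : ∀ p ∈ S, p ∈ tab.map Ent.q
  tab_nodup : (tab.map Ent.q).Nodup
  tab_chk : ∀ e ∈ tab, entChk S pr e = true
  lv_eq : tabEq (l1 :: l2 :: rest) tab = true
  lv_chk : lvChk (S.map fun p => p - 1).prod (l1 :: l2 :: rest) mm = true
  cover : coverChk l1.os l2.os subs = true
  chk : ∀ s ∈ subs, go sols (l1.res s.1 :: l2.res s.2 :: rest) 1 1 1 1 1 = true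

namespace Data

variable (D : Data)

/-- the levels -/
def lv : List Lvl := D.l1 :: D.l2 :: D.rest

lemma ent {e : Ent} (he : e ∈ D.tab) : e.q ∈ D.S ∧ e.q.Prime ∧
    (∀ r ∈ e.rows, rowChk D.S D.pr e.q r = true) ∧ e.cs.all (certChk D.S e.q) = true ∧
    closed D.S (e.rows.map Row.N) (e.cs.map Prod.fst) = true := by
  have h := D.tab_chk e he
  unfold entChk at h
  simp only [Bool.and_eq_true] at h
  obtain ⟨⟨⟨h1, h2⟩, h3⟩, h4⟩ := h
  have h5 : e.q ∈ D.S := by simpa using h1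
  exact ⟨h5, D.S_prime _ h5, List.all_eq_true.1 h2, h3, h4⟩

lemma W_S : W D.S.toFinset = (D.S.map fun p => p - 1).prod := by
  unfold W
  rw [List.prod_toFinset _ D.S_nodup]

lemma choices {n : ℕ} (h : Sol n) (hs : Sm D.S n) (tab : List Ent)
    (lv : List Lvl) (hsub : ∀ e ∈ tab, e ∈ D.tab) (heq : tabEq lv tab = true) :
    ∃ cs : List Opt, Ch lv cs ∧ List.Forall₂ (ER D.S.toFinset) tab cs ∧
      cs.map Opt.pw = tab.map (fun e => e.q ^ n.factorization e.q) := by
  induction tab generalizing lv with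
  | nil =>
    cases lv with
    | nil => exact ⟨[], List.Forall₂.nil, List.Forall₂.nil, rfl⟩
    | cons l lv => simp [tabEq] at heq
  | cons e tab ih =>
    cases lv with
    | nil => simp [tabEq] at heq
    | cons l lv =>
      unfold tabEq at heq
      rw [Bool.and_eq_true] at heq
      obtain ⟨h1, h2⟩ := heq
      have h1 := eql_sound h1
      obtain ⟨cs, hcs1, hcs2, hcs3⟩ := ih lv (fun e he => hsub e (by simp [he])) h2
      obtain ⟨hqS, hq, hrows, hcert, hcl⟩ := D.ent (hsub e (by simp))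
      have h3 := exponents h hs (fun p hp => (D.S_prime p hp).two_le) D.S_le D.S_all hq hqS _ _
        hcert hcl
      obtain ⟨r, hr, hrN⟩ := List.mem_map.1 h3
      have h4 := rowChk_sound D.S_prime D.pr_ok hq.two_le (hrows r hr)
      refine ⟨r.opt e.q :: cs, List.Forall₂.cons ?_ hcs1, List.Forall₂.cons ?_ hcs2, ?_⟩
      · rw [h1]
        exact List.mem_map_of_mem hr
      · exact ⟨r.N, h4.1, rfl, h4.2⟩
      · rw [List.map_cons, List.map_cons, hcs3]
        congr 1
        show e.q ^ (r.N - 1) = _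
        rw [hrN]
        simp

lemma tab_T : ∀ {tab : List Ent} {lv : List Lvl}, (∀ e ∈ tab, e ∈ D.tab) →
    tabEq lv tab = true → ∀ l ∈ lv, ∀ o ∈ l.os, ∀ p ∈ o.T, p.Prime ∧ p ∈ D.S.toFinset := by
  intro tab
  induction tab with
  | nil =>
    intro lv _ heq l hl
    cases lv with
    | nil => simp at hl
    | cons l lv => simp [tabEq] at heq
  | cons e tab ih =>
    intro lv hsub heq l hl o ho p hp
    cases lv with
    | nil => simp at hl
    | cons l' lv =>
      unfold tabEq at heq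
      rw [Bool.and_eq_true] at heq
      obtain ⟨h1, h2⟩ := heq
      rcases List.mem_cons.1 hl with rfl | hl
      · rw [eql_sound h1] at ho
        obtain ⟨r, hr, rfl⟩ := List.mem_map.1 ho
        obtain ⟨hqS, hq, hrows, -, -⟩ := D.ent (hsub e (by simp))
        have h6 := (rowChk_sound D.S_prime D.pr_ok hq.two_le (hrows r hr)).2.sub
        have h7 : p ∈ D.S.toFinset := h6 (by simpa using hp)
        exact ⟨D.S_prime p (by simpa using h7), h7⟩
      · exact ih (fun e he => hsub e (by simp [he])) h2 l hl o ho p hp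

lemma cover_sound {cs : List Opt} (h1 : Ch (D.l1 :: D.l2 :: D.rest) cs) :
    ∃ s ∈ D.subs, Ch (D.l1.res s.1 :: D.l2.res s.2 :: D.rest) cs := by
  rcases h1 with _ | ⟨ho1, h1⟩
  rename_i o1 cs
  rcases h1 with _ | ⟨ho2, h1⟩
  rename_i o2 cs
  have hc := List.all_eq_true.1 (List.all_eq_true.1 D.cover o1 ho1) o2 ho2
  obtain ⟨s, hs, hs'⟩ := List.any_eq_true.1 hc
  rw [Bool.and_eq_true] at hs'
  obtain ⟨z1, hz1, e1⟩ := List.any_eq_true.1 hs'.1
  obtain ⟨z2, hz2, e2⟩ := List.any_eq_true.1 hs'.2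
  rw [← eqo_sound e1] at hz1
  rw [← eqo_sound e2] at hz2
  exact ⟨s, hs, List.Forall₂.cons hz1 (List.Forall₂.cons hz2 h1)⟩

theorem forward {n : ℕ} (h : Sol n) (hs : Sm D.S n) : n ∈ D.sols := by
  obtain ⟨cs, h1, h2, h3⟩ := D.choices h hs D.tab D.lv (fun _ h => h) D.lv_eq
  have hn0 : n ≠ 0 := h.1.ne'
  have hprod : (cs.map Opt.pw).prod = n := by
    rw [h3]
    have : (D.tab.map fun e => e.q ^ n.factorization e.q) =
        (D.tab.map Ent.q).map fun q => q ^ n.factorization q := by simp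
    rw [this]
    exact prod_factorization D.tab_nodup hn0 (fun p hp hd => D.tab_q p (hs p hp hd))
  obtain ⟨_, _, ms, hms, hsig⟩ := sigma_of_choices h2 (fun e he => (D.ent he).2.1) D.tab_nodup
  rw [hprod] at hsig
  have hrho : (cs.map Opt.rho).prod ∣ sigma 1 n := by
    rw [hsig]
    exact rho_dvd hms
  have hout : ∀ p : ℕ, p.Prime → p ∣ (cs.map Opt.rho).prod → p ∉ D.S := by
    intro p hp hd
    simpa using rho_out hms p hp hd
  have hsq : Squarefree (1 * (cs.map Opt.rho).prod) := by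
    rw [one_mul, Nat.squarefree_iff_prime_squarefree]
    intro p hp hpp
    have h4 : p ∣ n := h.sq_dvd hp (hpp.trans hrho)
    exact hout p hp ((Dvd.intro _ rfl).trans hpp) (hs p hp h4)
  have hcop := cop_of_squarefree 1 cs hsq
  have hdec := dec_acc hms (Dec.one D.S.toFinset) hcop
  rw [one_mul, one_mul, ← hsig] at hdec
  have hphi := hdec.phi
  rw [h.2] at hphi
  have hlv : LvOK D.S.toFinset D.lv := by
    apply lvChk_sound (mm := D.mm)
    rw [D.W_S]
    exact D.lv_chk
  have hT := D.tab_T (fun _ h => h) D.lv_eq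
  obtain ⟨s, hs1, hs2⟩ := D.cover_sound h1
  have hlv' : LvOK D.S.toFinset (D.l1.res s.1 :: D.l2.res s.2 :: D.rest) := by
    obtain ⟨⟨a1, a2, a3⟩, ⟨b1, b2, b3⟩, c⟩ := hlv
    refine ⟨⟨?_, fun o ho => a2 o (rng_sub ho), ?_⟩, ⟨b1, fun o ho => b2 o (rng_sub ho), b3⟩, c⟩
    · intro cs' hcs'
      apply a1
      rcases hcs' with _ | ⟨ho, h'⟩
      exact List.Forall₂.cons (rng_sub ho) h'
    · intro l' hl' o ho
      rcases List.mem_cons.1 hl' with rfl | hl'
      · exact a3 D.l2 (by simp) o (rng_sub ho)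
      · exact a3 l' (by simp [hl']) o ho
  have hT' : ∀ l ∈ (D.l1.res s.1 :: D.l2.res s.2 :: D.rest), ∀ o ∈ l.os, ∀ p ∈ o.T,
      p.Prime ∧ p ∈ D.S.toFinset := by
    intro l hl o ho
    rcases List.mem_cons.1 hl with rfl | hl
    · exact hT D.l1 (by simp) o (rng_sub ho)
    · rcases List.mem_cons.1 hl with rfl | hl
      · exact hT D.l2 (by simp) o (rng_sub ho)
      · exact hT l (by simp [hl]) o ho
  have := go_sound D.S.toFinset D.sols _ hlv' hT' 1 1 1 ∅ (by simp) (by simp)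
    (by simpa [Pd, W] using D.chk s hs1) cs hs2 hcop
    (by rw [one_mul, one_mul, hprod]; exact hphi)
  rwa [one_mul, hprod] at this

end Data

/-- verification of one solution given by the list of the `v_q(n) + 1` -/
def ver (n : ℕ) : List Ent → List ℕ → ℕ → ℕ → ℕ → ℕ → ℕ → Bool
  | [], _, A, C, t, w, _ => Nat.beq A n && Nat.beq (A * t) (C * w)
  | _ :: _, [], _, _, _, _, _ => false
  | e :: tab, N :: Ns, A, C, t, w, R =>
    match e.rows.find? (fun r => Nat.beq r.N N) with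
    | none => false
    | some r => Nat.beq (Nat.gcd R (r.opt e.q).rho) 1 &&
        extT (r.opt e.q).T (fun t' w' =>
          ver n tab Ns (A * (r.opt e.q).pw) (C * (r.opt e.q).c) t' w' (R * (r.opt e.q).rho)) t w

lemma ver_sound {S pr : List ℕ} {n : ℕ} (hS : ∀ p ∈ S, p.Prime)
    (hpr : ∀ p ∈ pr, p.Prime ∧ p ∉ S) (tab : List Ent)
    (htab : ∀ e ∈ tab, e.q.Prime ∧ ∀ r ∈ e.rows, rowChk S pr e.q r = true) (Ns : List ℕ)
    (A C R : ℕ) (F : Finset ℕ) (hF : ∀ p ∈ F, p.Prime)
    (h : ver n tab Ns A C (Pd F) (W F) R = true) :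
    ∃ cs : List Opt, List.Forall₂ (ER S.toFinset) tab cs ∧ Cop R cs ∧
      A * (cs.map Opt.pw).prod = n ∧
      (A * (cs.map Opt.pw).prod) * Pd (accT F cs) =
        (C * (cs.map Opt.c).prod) * W (accT F cs) := by
  induction tab generalizing Ns A C R F with
  | nil =>
    simp only [ver, Bool.and_eq_true, Nat.beq_eq] at h
    exact ⟨[], List.Forall₂.nil, trivial, by simpa using h.1, by simpa [accT] using h.2⟩
  | cons e tab ih =>
    cases Ns with
    | nil => simp [ver] at h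
    | cons N Ns =>
      obtain ⟨hq, hrows⟩ := htab e (by simp)
      unfold ver at h
      cases hf : e.rows.find? (fun r => Nat.beq r.N N) with
      | none => rw [hf] at h; simp at h
      | some r =>
        rw [hf] at h
        simp only [Bool.and_eq_true, Nat.beq_eq] at h
        have hr : r ∈ e.rows := List.mem_of_find?_eq_some hf
        have h4 := rowChk_sound hS hpr hq.two_le (hrows r hr)
        have hT : ∀ p ∈ (r.opt e.q).T, p.Prime := by
          intro p hp
          have h7 : p ∈ S.toFinset := h4.2.sub (by simpa using hp)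
          exact hS p (by simpa using h7)
        obtain ⟨h1, h2⟩ := h
        rw [extT_eq _ _ _ hF hT] at h2
        have hF' : ∀ p ∈ F ∪ (r.opt e.q).T.toFinset, p.Prime := by
          intro p hp
          rcases Finset.mem_union.1 hp with hp | hp
          · exact hF p hp
          · exact hT p (by simpa using hp)
        obtain ⟨cs, hcs1, hcs2, hcs3, hcs4⟩ := ih (fun e he => htab e (by simp [he])) Ns _ _ _ _
          hF' h2
        refine ⟨r.opt e.q :: cs, List.Forall₂.cons ⟨r.N, h4.1, rfl, h4.2⟩ hcs1, ⟨h1, hcs2⟩, ?_, ?_⟩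
        · rw [List.map_cons, List.prod_cons, ← mul_assoc]
          exact hcs3
        · simp only [List.map_cons, List.prod_cons, accT, ← mul_assoc]
          exact hcs4

theorem Data.backward (D : Data) {n : ℕ} {Ns : List ℕ}
    (h : ver n D.tab Ns 1 1 1 1 1 = true) : Sol n ∧ Sm D.S n := by
  obtain ⟨cs, h1, h2, h3, h4⟩ := ver_sound (n := n) D.S_prime D.pr_ok D.tab
    (fun e he => ⟨(D.ent he).2.1, (D.ent he).2.2.1⟩) Ns 1 1 1 ∅ (by simp)
    (by simpa [Pd, W] using h)
  obtain ⟨h5, h6, ms, hms, hsig⟩ := sigma_of_choices h1 (fun e he => (D.ent he).2.1) D.tab_nodup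
  rw [one_mul] at h3
  rw [h3] at h5 h6 hsig
  have hdec := dec_acc hms (Dec.one D.S.toFinset) h2
  rw [one_mul, one_mul, ← hsig] at hdec
  have hphi := hdec.phi
  rw [one_mul, one_mul, h3] at h4
  rw [← h4] at hphi
  have hne : Pd (accT ∅ cs) ≠ 0 := by
    unfold Pd
    apply Finset.prod_ne_zero_iff.2
    intro p hp
    have : p ∈ D.S.toFinset := hdec.sub hp
    exact (D.S_prime p (by simpa using this)).ne_zero
  refine ⟨⟨Nat.pos_of_ne_zero h5, Nat.eq_of_mul_eq_mul_right (Nat.pos_of_ne_zero hne) hphi⟩, ?_⟩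
  intro p hp hd
  obtain ⟨e, he, rfl⟩ := List.mem_map.1 (h6 p hp hd)
  exact (D.ent he).1

/-- primality by trial division -/
def primeChk (x K : ℕ) : Bool :=
  Nat.ble 2 x && Nat.blt x ((K + 2) * (K + 2)) &&
    Nat.rec (motive := fun _ => Bool) true
      (fun k ih => bif Nat.beq (Nat.mod x (Nat.add k 2)) 0 then false else ih) K

lemma primeChk_aux (x K : ℕ) (h : Nat.rec (motive := fun _ => Bool) true
      (fun k ih => bif Nat.beq (Nat.mod x (Nat.add k 2)) 0 then false else ih) K = true) :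
    ∀ m : ℕ, 2 ≤ m → m < K + 2 → ¬ m ∣ x := by
  induction K with
  | zero => intro m h1 h2; omega
  | succ K ih =>
    have h' : (bif Nat.beq (Nat.mod x (Nat.add K 2)) 0 then false else
      Nat.rec (motive := fun _ => Bool) true
      (fun k ih => bif Nat.beq (Nat.mod x (Nat.add k 2)) 0 then false else ih) K) = true := h
    cases hb : Nat.beq (Nat.mod x (Nat.add K 2)) 0 with
    | true => rw [hb] at h'; simp at h'
    | false =>
      rw [hb] at h'
      simp only [cond_false] at h'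
      intro m h1 h2 hd
      by_cases hm : m = K + 2
      · subst hm
        have : Nat.beq (Nat.mod x (Nat.add K 2)) 0 = true := beq_t (Nat.mod_eq_zero_of_dvd hd)
        rw [hb] at this
        exact Bool.false_ne_true this
      · exact ih h' m h1 (by omega) hd

lemma primeChk_sound {x K : ℕ} (h : primeChk x K = true) : x.Prime := by
  unfold primeChk at h
  rw [Bool.and_eq_true, Bool.and_eq_true] at h
  obtain ⟨⟨h1, h2⟩, h3⟩ := h
  have h1' : 2 ≤ x := by simpa using h1
  have h2' : x < (K + 2) * (K + 2) := by simpa [Nat.blt_eq] using h2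
  rw [Nat.prime_def_le_sqrt]
  refine ⟨h1', ?_⟩
  intro m hm1 hm2
  apply primeChk_aux x K h3 m hm1
  have h4 : m * m ≤ x := Nat.le_sqrt.1 hm2
  by_contra hc
  have h5 : K + 2 ≤ m := by omega
  have := Nat.mul_le_mul h5 h5
  omega

end Pool.Agent.SmS
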